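import Pool.Agent.helper69.GR2B.Spec

/-!
# gb:BG: Theorem G for `n = 2` with the factor `(1 + log (1 + log SS))^4`
-/

set_option autoImplicit false

open Complex Metric Set Filter Topology MeasureTheory
open MPS (om)
open PPS (pre TT fd)
open XPS (Df er dens tau)
open Pool.Agent.helper16.Multibrot

noncomputable section

namespace GR

/-- `0` is a hyperbolic parameter. -/
lemma BG_zero (n : ℕ) (hn : 2 ≤ n) : (0 : ℂ) ∈ hyperbolic n := by
  refine ⟨0, 1, one_pos, ?_, ?_⟩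
  · simp
    omega
  · have h1 := (hasDerivAt_pow n (0 : ℂ)).add_const 0
    have h2 : ((n : ℂ) * 0 ^ (n - 1)) = 0 := by
      rw [zero_pow (by omega)]; simp
    rw [h2] at h1
    rw [Function.iterate_one, h1.deriv]
    simp

/-- monotonicity of `(1 + log t) / t`. -/
lemma BG_log (x y : ℝ) (hx : 1 ≤ x) (hxy : x ≤ y) :
    1 + Real.log y ≤ y / x * (1 + Real.log x) := by
  have hx0 : 0 < x := by linarith
  have hy0 : 0 < y := by linarith
  have h1 : Real.log y = Real.log x + Real.log (y / x) := by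
    rw [Real.log_div hy0.ne' hx0.ne']; ring
  have h2 : Real.log (y / x) ≤ y / x - 1 := Real.log_le_sub_one_of_pos (by positivity)
  have h3 : 0 ≤ Real.log x := Real.log_nonneg hx
  have h4 : 1 ≤ y / x := by rw [le_div_iff₀ hx0]; linarith
  nlinarith [mul_nonneg (sub_nonneg.2 h4) h3]

/-- `SS ≥ 1`. -/
lemma BG_SS (n : ℕ) (c : ℂ) (p : ℕ) (hp : 1 ≤ p) : 1 ≤ SS n c p := by
  have hA1 : A n c 1 = 1 := by simp [A]
  have hm : (1 : ℕ) ∈ Finset.Icc 1 p := Finset.mem_Icc.2 ⟨le_refl _, hp⟩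
  have h0 : ∀ i j : ℕ, 0 ≤ ‖A n c j‖ / ‖A n c i‖ := fun i j => by positivity
  calc (1 : ℝ) = ‖A n c 1‖ / ‖A n c 1‖ := by rw [hA1]; simp
    _ ≤ ∑ j ∈ Finset.Icc 1 p, ‖A n c j‖ / ‖A n c 1‖ :=
        Finset.single_le_sum (f := fun j => ‖A n c j‖ / ‖A n c 1‖) (fun j _ => h0 1 j) hm
    _ ≤ SS n c p :=
        Finset.single_le_sum (f := fun i => ∑ j ∈ Finset.Icc 1 p, ‖A n c j‖ / ‖A n c i‖)
          (fun i _ => Finset.sum_nonneg fun j _ => h0 i j) hm

theorem BG (hBCOR : BCOR_stmt) (hMIS : MIS_stmt) (hBDM : BDM_stmt) (hKAP : KAP_stmt) : BG_stmt := by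
  obtain ⟨K₁, hK₁, hC⟩ := hBCOR
  refine ⟨4000 * K₁, ?_⟩
  intro c hc p hp x hx hret
  have hn2 : 2 ≤ 2 := le_refl 2
  have hSS : 1 ≤ SS 2 c p := BG_SS 2 c p (by omega)
  set Λ : ℝ := (1 + Real.log (1 + Real.log (SS 2 c p))) ^ 4 with hΛdef
  have hΛ : 1 ≤ Λ := by
    have h1 := Real.log_nonneg hSS
    have h2 : 0 ≤ Real.log (1 + Real.log (SS 2 c p)) := Real.log_nonneg (by linarith)
    exact one_le_pow₀ (by linarith)
  obtain ⟨K₀, hK₀def⟩ : ∃ K₀ : ℝ, K₀ = K₁ * Λ := ⟨_, rfl⟩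
  have hK₀ : 1 ≤ K₀ := by rw [hK₀def]; nlinarith
  have hx0 : 0 < x := by linarith
  have hlogx : 0 ≤ Real.log x := Real.log_nonneg hx
  have hgoal : 4000 * K₁ * Λ * (1 + Real.log x) / x = 4000 * K₀ * (1 + Real.log x) / x := by
    rw [hK₀def]; ring
  rw [hgoal]
  set r := Metric.infDist c (hyperbolic 2) with hrdef
  have hR : 0 ≤ 4000 * K₀ * (1 + Real.log x) / x := by
    have : 0 ≤ K₀ := by linarith
    positivity
  rcases lt_or_ge 0 r with hr | hr
  swap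
  · exact hr.trans hR
  have hdis : Disjoint (ball c r) (hyperbolic 2) := disjoint_ball_infDist
  have hZ0 : Z 2 c 0 = 0 := rfl
  have hZ1 : Z 2 c 1 = c := by
    simp [Z]
  have hne : ∀ j, 1 ≤ j → Z 2 c j ≠ 0 := by
    intro j hj h
    have := hMIS 2 c r hn2 hdis c (mem_ball_self hr) 0 j (by omega)
    rw [hZ0] at this
    exact this h.symm
  have hle : ∀ j, ‖Z 2 c j‖ ≤ 2 := hBDM 2 c hn2 hc
  have hc2 : ‖c‖ ≤ 2 := by
    have := hle 1
    rwa [hZ1] at this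
  have hr2 : r ≤ 2 := by
    have := infDist_le_dist_of_mem (x := c) (BG_zero 2 hn2)
    rw [dist_zero_right] at this
    linarith
  rcases hx.eq_or_lt with h1 | h1
  · rw [← h1]
    simp only [Real.log_one, add_zero, mul_one, div_one]
    linarith
  obtain ⟨q, hq, hmin⟩ := Finset.exists_min_image (Finset.Icc 1 (p - 1)) (fun j => ‖Z 2 c j‖)
    ⟨1, Finset.mem_Icc.2 ⟨le_refl _, by omega⟩⟩
  rw [Finset.mem_Icc] at hq
  have hpp : 0 < ‖Z 2 c p‖ := norm_pos_iff.2 (hne p (by omega))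
  have hq2 : x * ‖Z 2 c p‖ ≤ ‖Z 2 c q‖ := hret q hq.1 (by omega)
  have hlt : ‖Z 2 c p‖ < ‖Z 2 c q‖ := by nlinarith
  have hRet : Ret 2 c p q :=
    { hn := hn2
      hc := hc2
      le2 := fun j _ _ => hle j
      ne0 := fun j hj _ => hne j hj
      q1 := hq.1
      qp := by omega
      mn := fun j hj1 hj2 => hmin j (Finset.mem_Icc.2 ⟨hj1, by omega⟩)
      lt := hlt }
  obtain ⟨hk1, hk2⟩ := hKAP 2 c r p q hr hdis hRet
  have hX := hC c p q (4000 / r) hRet hk1 hk2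
  rw [← hΛdef] at hX
  have hxX : x ≤ X 2 c p q := by
    rw [X, le_div_iff₀ hpp]
    exact hq2
  have hX0 : 0 < X 2 c p q := by linarith
  have hlog := BG_log x (X 2 c p q) hx hxX
  rw [le_div_iff₀ hx0]
  have h5 : K₀ * (4000 / r) * (1 + Real.log (X 2 c p q)) ≤
      K₀ * (4000 / r) * (X 2 c p q / x * (1 + Real.log x)) := by
    apply mul_le_mul_of_nonneg_left hlog
    have : 0 ≤ K₀ := by linarith
    positivity
  have h6 : X 2 c p q ≤ X 2 c p q * (K₀ * (4000 / r) * (1 / x * (1 + Real.log x))) := by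
    calc X 2 c p q ≤ K₁ * (4000 / r) * (1 + Real.log (X 2 c p q)) * Λ := hX
      _ = K₀ * (4000 / r) * (1 + Real.log (X 2 c p q)) := by rw [hK₀def]; ring
      _ ≤ _ := h5
      _ = _ := by ring
  have h7 : 1 ≤ K₀ * (4000 / r) * (1 / x * (1 + Real.log x)) := by
    by_contra hcon
    push Not at hcon
    nlinarith
  have h8 : r * x * 1 ≤ r * x * (K₀ * (4000 / r) * (1 / x * (1 + Real.log x))) :=
    mul_le_mul_of_nonneg_left h7 (by positivity)
  calc r * x = r * x * 1 := by ring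
    _ ≤ _ := h8
    _ = 4000 * K₀ * (1 + Real.log x) := by
      field_simp

end GR
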